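import Mathlib

/-!
The multi-scale entropy inequality: for a set `S` of numbers below `2 ^ m` which is not too sparse,
the average over the scales `e < m` of the number of points lost when only one of each two sibling
dyadic intervals of length `2 ^ e` may be used is at least a fifth of the set.
-/

namespace Pool.Agent.Helper64.Rect

open Finset

/-- number of points of `S` in the `q`-th dyadic interval of length `2 ^ e` -/
def cnt (S : Finset ℕ) (e q : ℕ) : ℕ := (S.filter (fun a => a / 2 ^ e = q)).card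

/-- sum over sibling pairs of the smaller number -/
def loss (S : Finset ℕ) (m e : ℕ) : ℕ :=
  ∑ t ∈ range (2 ^ (m - 1 - e)), min (cnt S e (2 * t)) (cnt S e (2 * t + 1))

/-- sum over sibling pairs of the larger number -/
def mx (S : Finset ℕ) (m e : ℕ) : ℕ :=
  ∑ t ∈ range (2 ^ (m - 1 - e)), max (cnt S e (2 * t)) (cnt S e (2 * t + 1))

theorem cnt_succ (S : Finset ℕ) (e t : ℕ) :
    cnt S (e + 1) t = cnt S e (2 * t) + cnt S e (2 * t + 1) := by
  unfold cnt
  rw [← Finset.card_union_of_disjoint]
  · congr 1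
    ext a
    simp only [mem_filter, mem_union]
    have : a / 2 ^ (e + 1) = a / 2 ^ e / 2 := by rw [pow_succ, Nat.div_div_eq_div_mul]
    rw [this, ← and_or_left]
    constructor
    · rintro ⟨h1, h2⟩
      exact ⟨h1, by omega⟩
    · rintro ⟨h1, h2⟩
      exact ⟨h1, by omega⟩
  · rw [Finset.disjoint_left]
    intro a h1 h2
    simp only [mem_filter] at h1 h2
    omega

theorem sum_range_pair {A : Type*} [AddCommMonoid A] (f : ℕ → A) (n : ℕ) :
    ∑ q ∈ range (2 * n), f q = ∑ t ∈ range n, (f (2 * t) + f (2 * t + 1)) := by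
  induction n with
  | zero => simp
  | succ n ih =>
    rw [show 2 * (n + 1) = 2 * n + 1 + 1 by ring, Finset.sum_range_succ, Finset.sum_range_succ,
      Finset.sum_range_succ, ih, add_assoc]

theorem sum_cnt {S : Finset ℕ} {m e : ℕ} (hS : S ⊆ range (2 ^ m)) (he : e ≤ m) :
    ∑ q ∈ range (2 ^ (m - e)), cnt S e q = S.card := by
  unfold cnt
  rw [← Finset.card_eq_sum_card_fiberwise]
  intro a ha
  have h1 := hS ha
  rw [mem_range] at h1
  simp only [coe_range, Set.mem_Iio]
  rw [Nat.div_lt_iff_lt_mul (by positivity), ← pow_add]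
  rwa [Nat.sub_add_cancel he]

theorem mx_add_loss {S : Finset ℕ} {m e : ℕ} (hS : S ⊆ range (2 ^ m)) (he : e < m) :
    mx S m e + loss S m e = S.card := by
  unfold mx loss
  rw [← Finset.sum_add_distrib, ← sum_cnt hS he.le]
  have h1 : 2 ^ (m - e) = 2 * 2 ^ (m - 1 - e) := by
    rw [← pow_succ']; congr 1; omega
  rw [h1, sum_range_pair]
  apply Finset.sum_congr rfl
  intro t _
  exact max_add_min _ _

/-- `u log u` -/
noncomputable def phi (u : ℕ) : ℝ := u * Real.log u

theorem log_aux {c s x : ℝ} (hc : 0 < c) (hs : 0 < s) (hx : 0 ≤ x) :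
    x * (Real.log c + Real.log s - Real.log x) ≤ c * s - x := by
  rcases hx.eq_or_lt with h | h
  · rw [← h]; simp only [zero_mul, sub_zero]; positivity
  · have h1 : Real.log c + Real.log s - Real.log x = Real.log (c * s / x) := by
      rw [Real.log_div (by positivity) h.ne', Real.log_mul hc.ne' hs.ne']
    rw [h1]
    have h2 := Real.log_le_sub_one_of_pos (show 0 < c * s / x by positivity)
    calc x * Real.log (c * s / x) ≤ x * (c * s / x - 1) := by gcongr
      _ = c * s - x := by field_simp

theorem pair_ineq (u w : ℕ) :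
    phi (u + w) ≤ phi u + phi w + (u + w : ℕ) * Real.log (5 / 4) + (min u w : ℕ) * Real.log 4 := by
  wlog hwu : w ≤ u generalizing u w with H
  · have := H w u (by omega)
    rw [add_comm u w, min_comm u w]
    linarith
  rw [min_eq_right hwu]
  rcases Nat.eq_zero_or_pos (u + w) with h0 | h0
  · have hu : u = 0 := by omega
    have hw : w = 0 := by omega
    subst hu; subst hw
    simp [phi]
  · have hs : (0 : ℝ) < (u : ℝ) + w := by exact_mod_cast h0
    have h1 := log_aux (c := 4 / 5) (by norm_num) hs (Nat.cast_nonneg u)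
    have h2 := log_aux (c := 1 / 5) (by norm_num) hs (Nat.cast_nonneg w)
    have h3 : Real.log (4 / 5) = - Real.log (5 / 4) := by
      rw [← Real.log_inv]; norm_num
    have h4 : Real.log (1 / 5) = - Real.log (5 / 4) - Real.log 4 := by
      rw [← Real.log_inv, ← Real.log_div (by norm_num) (by norm_num)]; norm_num
    rw [h3] at h1
    rw [h4] at h2
    unfold phi
    push_cast
    nlinarith [h1, h2]

theorem telescope {S : Finset ℕ} {m : ℕ} (hS : S ⊆ range (2 ^ m)) (e : ℕ) (he : e ≤ m) :
    ∑ q ∈ range (2 ^ (m - e)), phi (cnt S e q) ≤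
      e * S.card * Real.log (5 / 4) + Real.log 4 * ∑ i ∈ range e, (loss S m i : ℝ) := by
  induction e with
  | zero =>
    simp only [Nat.cast_zero, zero_mul, range_zero, sum_empty, mul_zero, add_zero]
    apply le_of_eq
    apply Finset.sum_eq_zero
    intro q _
    have h1 : cnt S 0 q ≤ 1 := by
      unfold cnt
      rw [Finset.card_le_one]
      intro a ha b hb
      simp only [pow_zero, Nat.div_one, mem_filter] at ha hb
      rw [ha.2, hb.2]
    interval_cases h : cnt S 0 q <;> simp [phi]
  | succ e ih =>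
    have ih' := ih (by omega)
    have h1 : 2 ^ (m - e) = 2 * 2 ^ (m - (e + 1)) := by
      rw [← pow_succ']; congr 1; omega
    rw [h1, sum_range_pair] at ih'
    have h2 : ∑ q ∈ range (2 ^ (m - (e + 1))), phi (cnt S (e + 1) q) ≤
        ∑ t ∈ range (2 ^ (m - (e + 1))), ((phi (cnt S e (2 * t)) + phi (cnt S e (2 * t + 1)))
          + (cnt S (e + 1) t : ℝ) * Real.log (5 / 4)
          + (min (cnt S e (2 * t)) (cnt S e (2 * t + 1)) : ℕ) * Real.log 4) := by
      apply Finset.sum_le_sum
      intro t _
      rw [cnt_succ]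
      have := pair_ineq (cnt S e (2 * t)) (cnt S e (2 * t + 1))
      linarith
    rw [Finset.sum_add_distrib, Finset.sum_add_distrib, ← Finset.sum_mul, ← Finset.sum_mul,
      ← Nat.cast_sum, ← Nat.cast_sum, sum_cnt hS he] at h2
    have h3 : m - 1 - e = m - (e + 1) := by omega
    have h4 : ∑ i ∈ range (e + 1), (loss S m i : ℝ) = ∑ i ∈ range e, (loss S m i : ℝ) + loss S m e :=
      Finset.sum_range_succ _ _
    rw [h4]
    have h5 : (loss S m e : ℝ) = ((∑ t ∈ range (2 ^ (m - (e + 1))),
        min (cnt S e (2 * t)) (cnt S e (2 * t + 1)) : ℕ) : ℝ) := by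
      unfold loss; rw [h3]
    rw [← h5] at h2
    push_cast
    linarith

theorem entropy {S : Finset ℕ} {m : ℕ} (hS : S ⊆ range (2 ^ m)) :
    (S.card : ℝ) * Real.log S.card ≤
      m * S.card * Real.log (5 / 4) + Real.log 4 * ∑ i ∈ range m, (loss S m i : ℝ) := by
  have h := telescope hS m le_rfl
  rw [Nat.sub_self, pow_zero, Finset.sum_range_one] at h
  have h1 : cnt S m 0 = S.card := by
    have := sum_cnt hS (le_refl m)
    rwa [Nat.sub_self, pow_zero, Finset.sum_range_one] at this
  rw [h1] at h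
  exact h

theorem sum_mx {S : Finset ℕ} {m : ℕ} (hS : S ⊆ range (2 ^ m)) {a : ℝ} (ha : 0 < a)
    (hm : 4 * Real.log (8 / a) ≤ m * Real.log 2) :
    ∑ e ∈ range m, (mx S m e : ℝ) ≤ m * (4 / 5 * S.card + a / 40 * 2 ^ m) := by
  have h0 : ∑ e ∈ range m, (mx S m e : ℝ) = m * S.card - ∑ i ∈ range m, (loss S m i : ℝ) := by
    have : ∀ e ∈ range m, (mx S m e : ℝ) = S.card - loss S m e := by
      intro e he
      rw [← mx_add_loss hS (mem_range.mp he)]
      push_cast; ring
    rw [Finset.sum_congr rfl this, Finset.sum_sub_distrib]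
    simp
  have hm0 : (0 : ℝ) ≤ m := Nat.cast_nonneg m
  have hc0 : (0 : ℝ) ≤ S.card := Nat.cast_nonneg _
  have hl2 : 0 < Real.log 2 := Real.log_pos (by norm_num)
  rcases le_or_gt (a / 8 * 2 ^ m) (S.card : ℝ) with h | h
  · have hpos : (0 : ℝ) < a / 8 * 2 ^ m := by positivity
    have h1 := entropy hS
    have h2 : Real.log (a / 8 * 2 ^ m) ≤ Real.log S.card := Real.log_le_log hpos h
    have h3 : Real.log (a / 8 * 2 ^ m) = m * Real.log 2 - Real.log (8 / a) := by
      rw [Real.log_mul (by positivity) (by positivity), Real.log_pow,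
        show a / 8 = (8 / a)⁻¹ by rw [inv_div], Real.log_inv]
      ring
    have h4 : (3 / 4) * (m * Real.log 2) ≤ Real.log S.card := by linarith
    have h5 : Real.log 4 = 2 * Real.log 2 := by
      rw [show (4 : ℝ) = 2 ^ 2 by norm_num, Real.log_pow]; norm_num
    have h6 : 20 * Real.log (5 / 4) ≤ 7 * Real.log 2 := by
      have e1 : 20 * Real.log (5 / 4) = Real.log ((5 / 4) ^ 20) := by rw [Real.log_pow]; norm_num
      have e2 : 7 * Real.log 2 = Real.log (2 ^ 7) := by rw [Real.log_pow]; norm_num
      rw [e1, e2]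
      apply Real.log_le_log (by positivity)
      norm_num
    have h7 : (S.card : ℝ) * (3 / 4 * (m * Real.log 2)) ≤ S.card * Real.log S.card := by gcongr
    have h8 : (m : ℝ) * S.card * (20 * Real.log (5 / 4)) ≤ m * S.card * (7 * Real.log 2) := by gcongr
    rw [h5] at h1
    have h9 : Real.log 2 * (m * S.card / 5) ≤ Real.log 2 * ∑ i ∈ range m, (loss S m i : ℝ) := by
      nlinarith
    have h10 := le_of_mul_le_mul_left h9 hl2
    rw [h0]
    have h11 : (0 : ℝ) ≤ m * (a / 40 * 2 ^ m) := by positivity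
    linarith
  · have h1 : (0 : ℝ) ≤ ∑ i ∈ range m, (loss S m i : ℝ) := by positivity
    rw [h0]
    nlinarith

end Pool.Agent.Helper64.Rect
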