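import Mathlib

/-!
Rectangle-adjacency in a finite planar configuration given by two injective coordinate functions,
and the adjacencies of the product configuration.
-/

namespace Pool.Agent.Helper64.Rect

variable {V : Type*}

/-- `w` lies in the closed axis-parallel rectangle spanned by `u` and `v`. -/
def Btw (X Y : V → ℕ) (u v w : V) : Prop :=
  (min (X u) (X v) ≤ X w ∧ X w ≤ max (X u) (X v)) ∧ (min (Y u) (Y v) ≤ Y w ∧ Y w ≤ max (Y u) (Y v))

/-- `u` and `v` are distinct and the rectangle spanned by them contains no other point. -/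
def RAdj (X Y : V → ℕ) (u v : V) : Prop := u ≠ v ∧ ∀ w, Btw X Y u v w → w = u ∨ w = v

/-- independent sets -/
def RIndep (X Y : V → ℕ) (A : Finset V) : Prop := ∀ u ∈ A, ∀ v ∈ A, ¬ RAdj X Y u v

/-- reversal of each of the intervals `[q h, (q + 1) h)` -/
def rev (h l : ℕ) : ℕ := h * (l / h) + (h - 1 - l % h)

theorem rev_div {h : ℕ} (hh : 0 < h) (l : ℕ) : rev h l / h = l / h := by
  have h1 : h - 1 - l % h < h := by have := Nat.mod_lt l hh; omega
  unfold rev
  rw [Nat.mul_add_div hh, Nat.div_eq_of_lt h1, add_zero]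

theorem rev_mod {h : ℕ} (hh : 0 < h) (l : ℕ) : rev h l % h = h - 1 - l % h := by
  have h1 : h - 1 - l % h < h := by have := Nat.mod_lt l hh; omega
  unfold rev
  rw [Nat.mul_add_mod, Nat.mod_eq_of_lt h1]

theorem rev_lt {h M l : ℕ} (hh : 0 < h) (hM : h ∣ M) (hl : l < M) : rev h l < M := by
  obtain ⟨c, rfl⟩ := hM
  have h1 : l / h < c := by
    rw [Nat.div_lt_iff_lt_mul hh]; rwa [mul_comm]
  rw [mul_comm h c]
  rw [← Nat.div_lt_iff_lt_mul hh, rev_div hh]
  exact h1

theorem rev_inj {h : ℕ} (hh : 0 < h) {l l' : ℕ} (e : rev h l = rev h l') : l = l' := by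
  have h1 : l / h = l' / h := by rw [← rev_div hh l, e, rev_div hh]
  have h2 : h - 1 - l % h = h - 1 - l' % h := by rw [← rev_mod hh l, e, rev_mod hh]
  have h3 := Nat.mod_lt l hh
  have h4 := Nat.mod_lt l' hh
  have h5 : l % h = l' % h := by omega
  rw [← Nat.div_add_mod l h, ← Nat.div_add_mod l' h, h1, h5]

/-- within one interval the order is reversed -/
theorem rev_le {h : ℕ} (hh : 0 < h) {l l' : ℕ} (e : l / h = l' / h) : rev h l ≤ rev h l' ↔ l' ≤ l := by
  have h3 := Nat.mod_lt l hh
  have h4 := Nat.mod_lt l' hh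
  have h5 := Nat.div_add_mod l h
  have h6 := Nat.div_add_mod l' h
  unfold rev
  rw [e] at h5 ⊢
  constructor <;> intro h7 <;> omega

theorem rev_lt_of_div_lt {h : ℕ} (hh : 0 < h) {l l' : ℕ} (e : l / h < l' / h) : rev h l < rev h l' := by
  by_contra hcon
  rw [not_lt] at hcon
  have := Nat.div_le_div_right (c := h) hcon
  rw [rev_div hh, rev_div hh] at this
  omega

section product

variable (X Y : V → ℕ) (M B : ℕ) (h : V → ℕ)

/-- first coordinate of the product configuration -/
def PX (p : V × Fin M) : ℕ := X p.1 * M + rev (h p.1) p.2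

/-- second coordinate of the product configuration -/
def PY (p : V × Fin M) : ℕ := (p.2 : ℕ) * B + Y p.1

variable {X Y M B h}

theorem PX_inj (hX : Function.Injective X) (hh : ∀ v, 0 < h v) (hM : ∀ v, h v ∣ M) :
    Function.Injective (PX X M h) := by
  rintro ⟨u, j⟩ ⟨v, l⟩ e
  have hMpos : 0 < M := lt_of_le_of_lt (Nat.zero_le _) j.2
  simp only [PX] at e
  have h1 := rev_lt (hh u) (hM u) j.2
  have h2 := rev_lt (hh v) (hM v) l.2
  have h3 : X u = X v := by
    have e1 : (X u * M + rev (h u) j) / M = X u := by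
      rw [mul_comm, Nat.mul_add_div hMpos, Nat.div_eq_of_lt h1, add_zero]
    have e2 : (X v * M + rev (h v) l) / M = X v := by
      rw [mul_comm, Nat.mul_add_div hMpos, Nat.div_eq_of_lt h2, add_zero]
    rw [← e1, e, e2]
  have h4 := hX h3
  subst h4
  have h5 : rev (h u) j = rev (h u) l := by omega
  have := rev_inj (hh u) h5
  rw [Fin.ext this]

theorem PY_inj (hY : Function.Injective Y) (hB : ∀ v, Y v < B) : Function.Injective (PY Y M B) := by
  rintro ⟨u, j⟩ ⟨v, l⟩ e
  simp only [PY] at e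
  have hBpos : 0 < B := lt_of_le_of_lt (Nat.zero_le _) (hB u)
  have e1 : ((j : ℕ) * B + Y u) / B = j := by
    rw [mul_comm, Nat.mul_add_div hBpos, Nat.div_eq_of_lt (hB u), add_zero]
  have e2 : ((l : ℕ) * B + Y v) / B = l := by
    rw [mul_comm, Nat.mul_add_div hBpos, Nat.div_eq_of_lt (hB v), add_zero]
  have h3 : (j : ℕ) = l := by rw [← e1, e, e2]
  have h4 : Y u = Y v := by rw [h3] at e; omega
  rw [Fin.ext h3, hY h4]

theorem div_le_aux {M a x b : ℕ} (hM : 0 < M) (ha : a * M ≤ x) (hx : x < b * M + M) : a ≤ x / M ∧ x / M ≤ b := by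
  constructor
  · rwa [Nat.le_div_iff_mul_le hM]
  · rw [← Nat.lt_succ_iff, Nat.div_lt_iff_lt_mul hM]
    calc x < b * M + M := hx
      _ = (b.succ) * M := by rw [Nat.succ_mul]

/-- adjacency inside a row -/
theorem row_adj (hh : ∀ v, 0 < h v) (hM : ∀ v, h v ∣ M) (hB : ∀ v, Y v < B)
    {u v : V} (huv : RAdj X Y u v) (j : Fin M) : RAdj (PX X M h) (PY Y M B) (u, j) (v, j) := by
  refine ⟨fun e => huv.1 (Prod.ext_iff.mp e).1, ?_⟩
  rintro ⟨w, l⟩ ⟨⟨hx1, hx2⟩, ⟨hy1, hy2⟩⟩
  have hMpos : 0 < M := lt_of_le_of_lt (Nat.zero_le _) j.2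
  have hBpos : 0 < B := lt_of_le_of_lt (Nat.zero_le _) (hB u)
  simp only [PX, PY] at hx1 hx2 hy1 hy2
  have hYu := hB u
  have hYv := hB v
  have hYw := hB w
  have hru := rev_lt (hh u) (hM u) j.2
  have hrv := rev_lt (hh v) (hM v) j.2
  have hrw := rev_lt (hh w) (hM w) l.2
  -- same row
  have hl : (l : ℕ) = j := by
    have h1 : (j : ℕ) * B ≤ (l : ℕ) * B + Y w := by
      rcases min_le_iff.mp hy1 with h0 | h0 <;> omega
    have h2 : (l : ℕ) * B + Y w < (j : ℕ) * B + B := by
      rcases le_max_iff.mp hy2 with h0 | h0 <;> omega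
    have h3 := div_le_aux hBpos h1 h2
    have e2 : ((l : ℕ) * B + Y w) / B = l := by
      rw [mul_comm, Nat.mul_add_div hBpos, Nat.div_eq_of_lt hYw, add_zero]
    rw [e2] at h3
    omega
  have hlj : l = j := Fin.ext hl
  subst hlj
  -- the first coordinates
  have hXw : min (X u) (X v) ≤ X w ∧ X w ≤ max (X u) (X v) := by
    have e2 : (X w * M + rev (h w) l) / M = X w := by
      rw [mul_comm, Nat.mul_add_div hMpos, Nat.div_eq_of_lt hrw, add_zero]
    have hmin : min (X u) (X v) * M ≤ X w * M + rev (h w) l := by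
      rcases min_le_iff.mp hx1 with h | h
      · have : min (X u) (X v) * M ≤ X u * M := Nat.mul_le_mul_right _ (min_le_left _ _)
        omega
      · have : min (X u) (X v) * M ≤ X v * M := Nat.mul_le_mul_right _ (min_le_right _ _)
        omega
    have hmax : X w * M + rev (h w) l < max (X u) (X v) * M + M := by
      rcases le_max_iff.mp hx2 with h | h
      · have : X u * M ≤ max (X u) (X v) * M := Nat.mul_le_mul_right _ (le_max_left _ _)
        omega
      · have : X v * M ≤ max (X u) (X v) * M := Nat.mul_le_mul_right _ (le_max_right _ _)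
        omega
    have := div_le_aux hMpos hmin hmax
    rwa [e2] at this
  have hYw' : min (Y u) (Y v) ≤ Y w ∧ Y w ≤ max (Y u) (Y v) := by
    constructor
    · rcases min_le_iff.mp hy1 with h | h
      · exact min_le_iff.mpr (Or.inl (by omega))
      · exact min_le_iff.mpr (Or.inr (by omega))
    · rcases le_max_iff.mp hy2 with h | h
      · exact le_max_iff.mpr (Or.inl (by omega))
      · exact le_max_iff.mpr (Or.inr (by omega))
  rcases huv.2 w ⟨hXw, hYw'⟩ with h | h
  · left; rw [h]
  · right; rw [h]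

/-- adjacency inside a cell: consecutive intervals are completely joined -/
theorem cell_adj (hX : Function.Injective X) (hh : ∀ v, 0 < h v) (hM : ∀ v, h v ∣ M) (hB : ∀ v, Y v < B)
    (v : V) {j l : Fin M} (hjl : (j : ℕ) / h v + 1 = (l : ℕ) / h v) :
    RAdj (PX X M h) (PY Y M B) (v, j) (v, l) := by
  have hMpos : 0 < M := lt_of_le_of_lt (Nat.zero_le _) j.2
  have hBpos : 0 < B := lt_of_le_of_lt (Nat.zero_le _) (hB v)
  have hjl' : (j : ℕ) < l := by
    by_contra hcon
    rw [not_lt] at hcon
    have := Nat.div_le_div_right (c := h v) hcon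
    omega
  refine ⟨fun e => by
    have := (Prod.ext_iff.mp e).2
    simp only at this
    rw [this] at hjl'
    exact lt_irrefl _ hjl', ?_⟩
  rintro ⟨w, t⟩ ⟨⟨hx1, hx2⟩, ⟨hy1, hy2⟩⟩
  simp only [PX, PY] at hx1 hx2 hy1 hy2
  have hYv := hB v
  have hYw := hB w
  have hrj := rev_lt (hh v) (hM v) j.2
  have hrl := rev_lt (hh v) (hM v) l.2
  have hrw := rev_lt (hh w) (hM w) t.2
  -- same cell
  have hXw : X w = X v := by
    have e2 : (X w * M + rev (h w) t) / M = X w := by
      rw [mul_comm, Nat.mul_add_div hMpos, Nat.div_eq_of_lt hrw, add_zero]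
    have hmin : X v * M ≤ X w * M + rev (h w) t := by
      rcases min_le_iff.mp hx1 with h0 | h0 <;> omega
    have hmax : X w * M + rev (h w) t < X v * M + M := by
      rcases le_max_iff.mp hx2 with h0 | h0 <;> omega
    have := div_le_aux hMpos hmin hmax
    rw [e2] at this
    omega
  have hwv : w = v := hX hXw
  subst hwv
  -- the row index is between
  have hjt : (j : ℕ) ≤ t := by
    have h1 : (j : ℕ) * B ≤ (t : ℕ) * B + Y w := by
      rcases min_le_iff.mp hy1 with h | h
      · omega
      · have : (j : ℕ) * B ≤ (l : ℕ) * B := Nat.mul_le_mul_right _ hjl'.le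
        omega
    have h2 : (t : ℕ) * B + Y w < (t : ℕ) * B + B := by omega
    have h3 := div_le_aux hBpos h1 h2
    exact h3.1.trans h3.2
  have htl : (t : ℕ) ≤ l := by
    have h1 : (t : ℕ) * B ≤ (t : ℕ) * B + Y w := by omega
    have h2 : (t : ℕ) * B + Y w < (l : ℕ) * B + B := by
      rcases le_max_iff.mp hy2 with h | h
      · have : (j : ℕ) * B ≤ (l : ℕ) * B := Nat.mul_le_mul_right _ hjl'.le
        omega
      · omega
    have h3 := div_le_aux hBpos h1 h2
    exact h3.1.trans h3.2
  have hrjl : rev (h w) j < rev (h w) l := rev_lt_of_div_lt (hh w) (by omega)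
  have hr1 : rev (h w) j ≤ rev (h w) t := by
    rcases min_le_iff.mp hx1 with h0 | h0 <;> omega
  have hr2 : rev (h w) t ≤ rev (h w) l := by
    rcases le_max_iff.mp hx2 with h0 | h0 <;> omega
  have hd1 := Nat.div_le_div_right (c := h w) hjt
  have hd2 := Nat.div_le_div_right (c := h w) htl
  rcases Nat.lt_or_ge ((t : ℕ) / h w) ((l : ℕ) / h w) with hlt | hge
  · left
    have e : (j : ℕ) / h w = (t : ℕ) / h w := by omega
    have := (rev_le (hh w) e).mp hr1
    have : (t : ℕ) = j := by omega
    rw [Fin.ext this]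
  · right
    have e : (t : ℕ) / h w = (l : ℕ) / h w := by omega
    have := (rev_le (hh w) e).mp hr2
    have : (t : ℕ) = l := by omega
    rw [Fin.ext this]

end product

end Pool.Agent.Helper64.Rect
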