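import Pool.Agent.Helper64.Rect.Step

/-!
The iterated construction: for every `K` there is a configuration of `2 ^ ((4 K + 34) K)` points all
of whose independent sets have density at most `(7 / 8) ^ K`.
-/

namespace Pool.Agent.Helper64.Rect

open Finset

theorem log_cond (K k : ℕ) (hk : k ≤ K) :
    4 * Real.log (8 / (7 / 8) ^ k) ≤ ((K + 12 : ℕ) : ℝ) * Real.log 2 := by
  have h1 : Real.log (8 / (7 / 8) ^ k) = 3 * Real.log 2 + k * Real.log (8 / 7) := by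
    rw [Real.log_div (by norm_num) (by positivity), Real.log_pow,
      show (8 : ℝ) = 2 ^ 3 by norm_num, Real.log_pow, show (7 : ℝ) / 2 ^ 3 = (2 ^ 3 / 7)⁻¹ by norm_num,
      Real.log_inv]
    push_cast; ring
  have h2 : 4 * Real.log (8 / 7) ≤ Real.log 2 := by
    have : 4 * Real.log (8 / 7) = Real.log ((8 / 7) ^ 4) := by rw [Real.log_pow]; norm_num
    rw [this]
    apply Real.log_le_log (by positivity)
    norm_num
  have h3 : 0 < Real.log 2 := Real.log_pos (by norm_num)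
  have h4 : (k : ℝ) ≤ K := by exact_mod_cast hk
  rw [h1]
  push_cast
  have h5 : (k : ℝ) * (4 * Real.log (8 / 7)) ≤ k * Real.log 2 := by gcongr
  have h6 : (k : ℝ) * Real.log 2 ≤ K * Real.log 2 := by gcongr
  nlinarith

theorem key (x a b Q : ℝ) : (x * a) * b * Q = x * (Q * (a * b)) := by ring

theorem size_cond (K k : ℕ) (hk : k < K) :
    ((2 : ℝ) ^ (k * (2 ^ (4 * K + 34)) ^ (k - 1) * 2 ^ (K + 11))) ^ (2 ^ (K + 12)) <
      Real.exp ((7 / 8) ^ k * (((2 ^ (4 * K + 34)) ^ k : ℕ) : ℝ) / 2000) := by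
  rw [← pow_mul]
  set E := k * (2 ^ (4 * K + 34)) ^ (k - 1) * 2 ^ (K + 11) * 2 ^ (K + 12) with hE
  have h1 : (2 : ℝ) ^ E ≤ Real.exp E := by
    have h2 : (2 : ℝ) ≤ Real.exp 1 := by
      have := Real.add_one_le_exp (1 : ℝ); linarith
    calc (2 : ℝ) ^ E ≤ (Real.exp 1) ^ E := by gcongr
      _ = Real.exp E := by rw [← Real.exp_nat_mul, mul_one]
  refine lt_of_le_of_lt h1 (Real.exp_lt_exp.mpr ?_)
  rcases Nat.eq_zero_or_pos k with h0 | h0
  · subst h0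
    rw [hE]; simp
  · obtain ⟨j, rfl⟩ : ∃ j, k = j + 1 := ⟨k - 1, by omega⟩
    have e1 : ((E : ℕ) : ℝ) = (j + 1) * 2 ^ (2 * K + 23) * ((2 : ℝ) ^ (4 * K + 34)) ^ j := by
      rw [hE]; push_cast
      rw [show 2 * K + 23 = (K + 11) + (K + 12) by ring, pow_add (2 : ℝ) (K + 11)]
      ring
    rw [e1]
    push_cast
    rw [lt_div_iff₀ (by norm_num)]
    have h2 : ((j : ℝ) + 1) < 2 ^ K := by
      have : j + 1 < 2 ^ K := lt_of_le_of_lt hk.le Nat.lt_two_pow_self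
      exact_mod_cast this
    have h3 : (1 : ℝ) ≤ (7 / 8) ^ (j + 1) * 2 ^ K := by
      have e : (1 : ℝ) ≤ (7 / 8 * 2) ^ (j + 1) := one_le_pow₀ (by norm_num)
      calc (1 : ℝ) ≤ (7 / 8 * 2) ^ (j + 1) := e
        _ = (7 / 8) ^ (j + 1) * 2 ^ (j + 1) := mul_pow _ _ _
        _ ≤ (7 / 8) ^ (j + 1) * 2 ^ K := by gcongr; norm_num
    have h4 : (0 : ℝ) < ((2 : ℝ) ^ (4 * K + 34)) ^ j := by positivity
    have h5 : (0 : ℝ) < (2 : ℝ) ^ (2 * K + 23) := by positivity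
    calc (j + 1 : ℝ) * 2 ^ (2 * K + 23) * ((2 : ℝ) ^ (4 * K + 34)) ^ j * 2000
        < 2 ^ K * 2 ^ (2 * K + 23) * ((2 : ℝ) ^ (4 * K + 34)) ^ j * 2 ^ 11 := by
          have : (j + 1 : ℝ) * 2 ^ (2 * K + 23) * ((2 : ℝ) ^ (4 * K + 34)) ^ j <
            2 ^ K * 2 ^ (2 * K + 23) * ((2 : ℝ) ^ (4 * K + 34)) ^ j := by gcongr
          have h6 : (0 : ℝ) ≤ (j + 1 : ℝ) * 2 ^ (2 * K + 23) * ((2 : ℝ) ^ (4 * K + 34)) ^ j := by
            positivity
          nlinarith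
      _ = 1 * 2 ^ (3 * K + 34) * ((2 : ℝ) ^ (4 * K + 34)) ^ j := by
          have e : (2 : ℝ) ^ (3 * K + 34) = 2 ^ K * 2 ^ (2 * K + 23) * 2 ^ 11 := by
            rw [← pow_add, ← pow_add, show K + (2 * K + 23) + 11 = 3 * K + 34 by ring]
          rw [e]
          ring
      _ ≤ ((7 / 8) ^ (j + 1) * 2 ^ K) * 2 ^ (3 * K + 34) * ((2 : ℝ) ^ (4 * K + 34)) ^ j := by gcongr
      _ = (7 / 8) ^ (j + 1) * ((2 : ℝ) ^ (4 * K + 34)) ^ (j + 1) := by
          have e : (2 : ℝ) ^ (4 * K + 34) = 2 ^ K * 2 ^ (3 * K + 34) := by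
            rw [← pow_add, show K + (3 * K + 34) = 4 * K + 34 by ring]
          have e2 : ((2 : ℝ) ^ (4 * K + 34)) ^ (j + 1) =
              ((2 : ℝ) ^ (4 * K + 34)) ^ j * (2 ^ K * 2 ^ (3 * K + 34)) :=
            (pow_succ _ _).trans (congrArg (fun z => ((2 : ℝ) ^ (4 * K + 34)) ^ j * z) e)
          exact (key _ _ _ _).trans (congrArg (fun z => (7 / 8 : ℝ) ^ (j + 1) * z) e2.symm)

theorem hasConf_iterate (K : ℕ) : ∀ k ≤ K, HasConf ((2 ^ (4 * K + 34)) ^ k) ((7 / 8) ^ k)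
    (k * (2 ^ (4 * K + 34)) ^ (k - 1) * 2 ^ (K + 11)) := by
  intro k
  induction k with
  | zero =>
    intro _
    rw [pow_zero, pow_zero, Nat.zero_mul, Nat.zero_mul]
    exact hasConf_one
  | succ k ih =>
    intro hk
    have h := hasConf_step (ih (by omega)) (m := K + 12) (b := 2 ^ (3 * K + 22)) (by omega)
      (by positivity) (by positivity) (size_cond K k (by omega)) (log_cond K k (by omega))
    have e1 : 2 ^ (K + 12) * 2 ^ (3 * K + 22) = 2 ^ (4 * K + 34) := by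
      rw [← pow_add]; congr 1; ring
    rw [e1] at h
    have e2 : (7 / 8 : ℝ) * (7 / 8) ^ k = (7 / 8) ^ (k + 1) := (pow_succ' _ _).symm
    have e3 : (2 ^ (4 * K + 34)) ^ k * 2 ^ (4 * K + 34) = (2 ^ (4 * K + 34)) ^ (k + 1) :=
      (pow_succ _ _).symm
    rw [e2, e3] at h
    have e4 : k * (2 ^ (4 * K + 34)) ^ (k - 1) * 2 ^ (K + 11) * 2 ^ (4 * K + 34) +
        2 ^ (K + 12 - 1) * (2 ^ (4 * K + 34)) ^ k =
        (k + 1) * (2 ^ (4 * K + 34)) ^ (k + 1 - 1) * 2 ^ (K + 11) := by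
      rw [show K + 12 - 1 = K + 11 by omega, show k + 1 - 1 = k by omega]
      rcases Nat.eq_zero_or_pos k with h0 | h0
      · subst h0; simp
      · obtain ⟨j, rfl⟩ : ∃ j, k = j + 1 := ⟨k - 1, by omega⟩
        rw [show j + 1 - 1 = j by omega]
        ring
    rw [e4] at h
    exact h

/-- Configurations without large independent sets. -/
theorem exists_conf (K : ℕ) : ∃ (V : Type) (_ : Fintype V) (X Y : V → ℕ),
    Fintype.card V = 2 ^ ((4 * K + 34) * K) ∧ Function.Injective X ∧ Function.Injective Y ∧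
    ∀ A : Finset V, RIndep X Y A → (A.card : ℝ) ≤ (7 / 8) ^ K * 2 ^ ((4 * K + 34) * K) := by
  obtain ⟨V, _, _, X, Y, F, hN, hX, hY, hF1, hF2, -⟩ := hasConf_iterate K K le_rfl
  refine ⟨V, inferInstance, X, Y, ?_, hX, hY, ?_⟩
  · rw [hN, pow_mul]
  · intro A hA
    obtain ⟨C, hC, hAC⟩ := hF1 A hA
    have h1 : (A.card : ℝ) ≤ C.card := by exact_mod_cast Finset.card_le_card hAC
    have h2 := hF2 C hC
    push_cast at h2
    rw [pow_mul]
    exact h1.trans h2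

end Pool.Agent.Helper64.Rect
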