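import Pool.Agent.Helper64.Rect.Entropy

/-!
Choice of the scales: if a family of sets of density at most `a` is small, there is one assignment
of scales to the points which is good for all tuples of members of the family.
-/

namespace Pool.Agent.Helper64.Rect

open Finset

variable {V : Type*} [Fintype V] [DecidableEq V]

/-- the rows below `2 ^ m` containing `v` -/
def fib (m : ℕ) (C : ℕ → Finset V) (v : V) : Finset ℕ := (range (2 ^ m)).filter (fun i => v ∈ C i)

omit [Fintype V] in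
theorem fib_subset (m : ℕ) (C : ℕ → Finset V) (v : V) : fib m C v ⊆ range (2 ^ m) :=
  Finset.filter_subset _ _

theorem sum_card_fib (m : ℕ) (C : ℕ → Finset V) :
    ∑ v, (fib m C v).card = ∑ i ∈ range (2 ^ m), (C i).card := by
  unfold fib
  simp_rw [Finset.card_filter]
  rw [Finset.sum_comm]
  apply Finset.sum_congr rfl
  intro i _
  rw [← Finset.card_filter]
  congr 1
  ext v
  simp

theorem exp_aux {x : ℝ} (h0 : 0 ≤ x) (h1 : x ≤ 1) : Real.exp (x / 40) ≤ 1 + x / 39 := by
  have h2 : 1 - x / 40 ≤ Real.exp (-(x / 40)) := by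
    have := Real.add_one_le_exp (-(x / 40)); linarith
  have h3 : (0 : ℝ) < 1 - x / 40 := by linarith
  rw [Real.exp_neg] at h2
  have h4 : 0 < Real.exp (x / 40) := Real.exp_pos _
  have h5 : Real.exp (x / 40) * (1 - x / 40) ≤ 1 := by
    calc Real.exp (x / 40) * (1 - x / 40) ≤ Real.exp (x / 40) * (Real.exp (x / 40))⁻¹ := by gcongr
      _ = 1 := mul_inv_cancel₀ h4.ne'
  have h6 : 1 ≤ (1 + x / 39) * (1 - x / 40) := by nlinarith
  by_contra hcon
  rw [not_le] at hcon
  have : (1 + x / 39) * (1 - x / 40) < Real.exp (x / 40) * (1 - x / 40) := by gcongr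
  linarith

theorem mx_le_card {S : Finset ℕ} {m e : ℕ} (hS : S ⊆ range (2 ^ m)) (he : e < m) :
    mx S m e ≤ S.card := by
  have := mx_add_loss hS he; omega

theorem mx_le {S : Finset ℕ} {m e : ℕ} (hS : S ⊆ range (2 ^ m)) (he : e < m) :
    (mx S m e : ℝ) / 2 ^ m ≤ 1 := by
  rw [div_le_one (by positivity)]
  have h1 := mx_le_card hS he
  have h2 := Finset.card_le_card hS
  rw [card_range] at h2
  exact_mod_cast h1.trans h2

/-- the exponential moment for one point -/
theorem moment_one {S : Finset ℕ} {m : ℕ} (hS : S ⊆ range (2 ^ m)) {a : ℝ} (ha : 0 < a)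
    (hm : 4 * Real.log (8 / a) ≤ m * Real.log 2) :
    ∑ j : Fin m, Real.exp ((mx S m j : ℝ) / 2 ^ m / 40) ≤
      m * Real.exp ((4 / 5 * S.card / 2 ^ m + a / 40) / 39) := by
  have h1 : ∀ j : Fin m, Real.exp ((mx S m j : ℝ) / 2 ^ m / 40) ≤ 1 + (mx S m j : ℝ) / 2 ^ m / 39 :=
    fun j => exp_aux (by positivity) (mx_le hS j.2)
  have h2 : ∑ j : Fin m, (mx S m j : ℝ) ≤ m * (4 / 5 * S.card + a / 40 * 2 ^ m) := by
    have := sum_mx hS ha hm
    rwa [← Fin.sum_univ_eq_sum_range (fun j => (mx S m j : ℝ)) m] at this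
  calc ∑ j : Fin m, Real.exp ((mx S m j : ℝ) / 2 ^ m / 40)
      ≤ ∑ j : Fin m, (1 + (mx S m j : ℝ) / 2 ^ m / 39) := Finset.sum_le_sum (fun j _ => h1 j)
    _ = m + (∑ j : Fin m, (mx S m j : ℝ)) / 2 ^ m / 39 := by
        rw [Finset.sum_add_distrib, Finset.sum_div, Finset.sum_div]; simp
    _ ≤ m + (m * (4 / 5 * S.card + a / 40 * 2 ^ m)) / 2 ^ m / 39 := by gcongr
    _ = m * (1 + (4 / 5 * S.card / 2 ^ m + a / 40) / 39) := by
        have : (2 : ℝ) ^ m ≠ 0 := by positivity
        field_simp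
    _ ≤ m * Real.exp ((4 / 5 * S.card / 2 ^ m + a / 40) / 39) := by
        gcongr
        have := Real.add_one_le_exp ((4 / 5 * (S.card : ℝ) / 2 ^ m + a / 40) / 39)
        linarith

/-- the exponential moment over all assignments -/
theorem moment {m : ℕ} {a : ℝ} (ha : 0 < a) (hm : 4 * Real.log (8 / a) ≤ m * Real.log 2)
    (C : ℕ → Finset V) (hC : ∀ i < 2 ^ m, ((C i).card : ℝ) ≤ a * Fintype.card V) :
    ∑ e : V → Fin m, Real.exp ((∑ v, (mx (fib m C v) m (e v) : ℝ)) / 2 ^ m / 40) ≤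
      (m : ℝ) ^ Fintype.card V * Real.exp (33 / 1560 * (a * Fintype.card V)) := by
  have h1 : ∀ e : V → Fin m, Real.exp ((∑ v, (mx (fib m C v) m (e v) : ℝ)) / 2 ^ m / 40) =
      ∏ v, Real.exp ((mx (fib m C v) m (e v) : ℝ) / 2 ^ m / 40) := by
    intro e
    rw [← Real.exp_sum, Finset.sum_div, Finset.sum_div]
  simp_rw [h1]
  have h2 : ∑ e : V → Fin m, ∏ v, Real.exp ((mx (fib m C v) m (e v) : ℝ) / 2 ^ m / 40) =
      ∏ v, ∑ j : Fin m, Real.exp ((mx (fib m C v) m j : ℝ) / 2 ^ m / 40) := by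
    rw [Finset.prod_univ_sum, Fintype.piFinset_univ]
  rw [h2]
  calc ∏ v, ∑ j : Fin m, Real.exp ((mx (fib m C v) m j : ℝ) / 2 ^ m / 40)
      ≤ ∏ v, (m * Real.exp ((4 / 5 * (fib m C v).card / 2 ^ m + a / 40) / 39)) := by
        apply Finset.prod_le_prod
        · intro v _; positivity
        · intro v _; exact moment_one (fib_subset m C v) ha hm
    _ = (m : ℝ) ^ Fintype.card V *
          Real.exp (∑ v : V, ((4 / 5 * (fib m C v).card / 2 ^ m + a / 40) / 39)) := by
        rw [Finset.prod_mul_distrib, Real.exp_sum, Finset.prod_const, Finset.card_univ]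
    _ ≤ (m : ℝ) ^ Fintype.card V * Real.exp (33 / 1560 * (a * Fintype.card V)) := by
        gcongr
        rw [← Finset.sum_div, Finset.sum_add_distrib, ← Finset.sum_div, ← Finset.mul_sum,
          Finset.sum_const, Finset.card_univ, nsmul_eq_mul, ← Nat.cast_sum, sum_card_fib]
        have h3 : ((∑ i ∈ range (2 ^ m), (C i).card : ℕ) : ℝ) ≤ 2 ^ m * (a * Fintype.card V) := by
          push_cast
          calc ∑ i ∈ range (2 ^ m), ((C i).card : ℝ) ≤ ∑ _i ∈ range (2 ^ m), a * Fintype.card V :=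
                Finset.sum_le_sum (fun i hi => hC i (mem_range.mp hi))
            _ = 2 ^ m * (a * Fintype.card V) := by
                rw [Finset.sum_const, card_range, nsmul_eq_mul]; push_cast; ring
        have h4 : 4 / 5 * ((∑ i ∈ range (2 ^ m), (C i).card : ℕ) : ℝ) / 2 ^ m ≤
            4 / 5 * (a * Fintype.card V) := by
          rw [div_le_iff₀ (by positivity)]
          nlinarith
        linarith

/-- The choice of the scales. -/
theorem exists_levels (m : ℕ) (hm0 : 0 < m) (F : Finset (Finset V)) {a : ℝ} (ha : 0 < a)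
    (hF : ∀ C ∈ F, (C.card : ℝ) ≤ a * Fintype.card V)
    (hcard : (F.card : ℝ) ^ (2 ^ m) < Real.exp (a * Fintype.card V / 2000))
    (hm : 4 * Real.log (8 / a) ≤ m * Real.log 2) :
    ∃ e : V → ℕ, (∀ v, e v < m) ∧ ∀ C : ℕ → Finset V, (∀ i < 2 ^ m, C i ∈ F) →
      ∑ v, (mx (fib m C v) m (e v) : ℝ) ≤ 7 / 8 * a * 2 ^ m * Fintype.card V := by
  by_contra hcon
  push Not at hcon
  set ext : (Fin (2 ^ m) → Finset V) → ℕ → Finset V :=
    fun f i => if h : i < 2 ^ m then f ⟨i, h⟩ else ∅ with hext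
  have hfib : ∀ (C : ℕ → Finset V) v, fib m (ext (fun i => C i)) v = fib m C v := by
    intro C v
    unfold fib
    apply Finset.filter_congr
    intro i hi
    rw [mem_range] at hi
    simp [hext, hi]
  -- every assignment is bad for some tuple
  have h1 : ∀ e : V → Fin m, ∃ f ∈ Fintype.piFinset (fun _ : Fin (2 ^ m) => F),
      7 / 8 * a * 2 ^ m * Fintype.card V < ∑ v, (mx (fib m (ext f) v) m (e v) : ℝ) := by
    intro e
    obtain ⟨C, hC1, hC2⟩ := hcon (fun v => e v) (fun v => (e v).2)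
    refine ⟨fun i => C i, ?_, ?_⟩
    · rw [Fintype.mem_piFinset]; intro i; exact hC1 i i.2
    · simp_rw [hfib]; exact hC2
  have h2 : ∀ e : V → Fin m, Real.exp (7 / 320 * (a * Fintype.card V)) ≤
      ∑ f ∈ Fintype.piFinset (fun _ : Fin (2 ^ m) => F),
        Real.exp ((∑ v, (mx (fib m (ext f) v) m (e v) : ℝ)) / 2 ^ m / 40) := by
    intro e
    obtain ⟨f, hf, hf2⟩ := h1 e
    refine le_trans ?_ (Finset.single_le_sum (f := fun f =>
      Real.exp ((∑ v, (mx (fib m (ext f) v) m (e v) : ℝ)) / 2 ^ m / 40))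
      (fun f _ => (Real.exp_pos _).le) hf)
    apply Real.exp_le_exp.mpr
    have h3 : 7 / 8 * a * Fintype.card V ≤ (∑ v, (mx (fib m (ext f) v) m (e v) : ℝ)) / 2 ^ m := by
      rw [le_div_iff₀ (by positivity)]
      linarith
    linarith
  have h3 : ((m : ℝ) ^ Fintype.card V) * Real.exp (7 / 320 * (a * Fintype.card V)) ≤
      ∑ e : V → Fin m, ∑ f ∈ Fintype.piFinset (fun _ : Fin (2 ^ m) => F),
        Real.exp ((∑ v, (mx (fib m (ext f) v) m (e v) : ℝ)) / 2 ^ m / 40) := by
    calc ((m : ℝ) ^ Fintype.card V) * Real.exp (7 / 320 * (a * Fintype.card V))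
        = ∑ _e : V → Fin m, Real.exp (7 / 320 * (a * Fintype.card V)) := by
          rw [Finset.sum_const, nsmul_eq_mul, Finset.card_univ, Fintype.card_fun, Fintype.card_fin]
          push_cast; ring
      _ ≤ _ := Finset.sum_le_sum (fun e _ => h2 e)
  rw [Finset.sum_comm] at h3
  have h4 : ∑ f ∈ Fintype.piFinset (fun _ : Fin (2 ^ m) => F), ∑ e : V → Fin m,
        Real.exp ((∑ v, (mx (fib m (ext f) v) m (e v) : ℝ)) / 2 ^ m / 40) ≤
      ∑ _f ∈ Fintype.piFinset (fun _ : Fin (2 ^ m) => F),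
        (m : ℝ) ^ Fintype.card V * Real.exp (33 / 1560 * (a * Fintype.card V)) := by
    apply Finset.sum_le_sum
    intro f hf
    apply moment ha hm
    intro i hi
    have : ext f i = f ⟨i, hi⟩ := by simp [hext, hi]
    rw [this]
    exact hF _ (Fintype.mem_piFinset.mp hf _)
  rw [Finset.sum_const, nsmul_eq_mul, Fintype.card_piFinset_const] at h4
  push_cast at h4
  have h5 := h3.trans h4
  have hmN : (0 : ℝ) < (m : ℝ) ^ Fintype.card V := by positivity
  have h6 : Real.exp (7 / 320 * (a * Fintype.card V)) ≤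
      (F.card : ℝ) ^ (2 ^ m) * Real.exp (33 / 1560 * (a * Fintype.card V)) := by
    have : (m : ℝ) ^ Fintype.card V * Real.exp (7 / 320 * (a * Fintype.card V)) ≤
        (m : ℝ) ^ Fintype.card V *
          ((F.card : ℝ) ^ (2 ^ m) * Real.exp (33 / 1560 * (a * Fintype.card V))) := by
      linarith
    exact le_of_mul_le_mul_left this hmN
  have h7 : (F.card : ℝ) ^ (2 ^ m) * Real.exp (33 / 1560 * (a * Fintype.card V)) <
      Real.exp (a * Fintype.card V / 2000) * Real.exp (33 / 1560 * (a * Fintype.card V)) := by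
    gcongr
  rw [← Real.exp_add] at h7
  have h8 := Real.exp_lt_exp.mp (lt_of_le_of_lt h6 h7)
  have h9 : (0 : ℝ) ≤ a * Fintype.card V := by positivity
  linarith

end Pool.Agent.Helper64.Rect
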