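import Pool.Agent.Helper64.Rect.Geo
import Pool.Agent.Helper64.Rect.Levels

/-!
One step of the construction: containers for the independent sets of the product configuration.
-/

namespace Pool.Agent.Helper64.Rect

open Finset

/-- choosing one of each two siblings leaves at most `mx` points -/
theorem sel_card_le {S : Finset ℕ} {m e : ℕ} (hS : S ⊆ range (2 ^ m)) (he : e < m) (σ : ℕ → Bool) :
    (S.filter (fun i => decide ((i / 2 ^ e) % 2 = 1) = σ (i / 2 ^ (e + 1)))).card ≤ mx S m e := by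
  have hmap : Set.MapsTo (fun i => i / 2 ^ (e + 1))
      (S.filter (fun i => decide ((i / 2 ^ e) % 2 = 1) = σ (i / 2 ^ (e + 1))) : Set ℕ)
      (range (2 ^ (m - 1 - e)) : Set ℕ) := by
    intro i hi
    have h1 : i ∈ S := (Finset.mem_filter.mp hi).1
    have h2 := mem_range.mp (hS h1)
    simp only [coe_range, Set.mem_Iio]
    rw [Nat.div_lt_iff_lt_mul (by positivity), ← pow_add]
    have : m - 1 - e + (e + 1) = m := by omega
    rwa [this]
  rw [Finset.card_eq_sum_card_fiberwise hmap]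
  unfold mx
  apply Finset.sum_le_sum
  intro t _
  have hdiv : ∀ i : ℕ, i / 2 ^ (e + 1) = i / 2 ^ e / 2 := by
    intro i; rw [pow_succ, Nat.div_div_eq_div_mul]
  cases h : σ t
  · refine le_trans (Finset.card_le_card ?_) (le_max_left _ _)
    intro i hi
    simp only [mem_filter] at hi ⊢
    obtain ⟨⟨h1, h2⟩, h3⟩ := hi
    rw [h3, h] at h2
    have h4 := hdiv i
    have h5 : ¬ (i / 2 ^ e) % 2 = 1 := by simpa using h2
    exact ⟨h1, by omega⟩
  · refine le_trans (Finset.card_le_card ?_) (le_max_right _ _)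
    intro i hi
    simp only [mem_filter] at hi ⊢
    obtain ⟨⟨h1, h2⟩, h3⟩ := hi
    rw [h3, h] at h2
    have h4 := hdiv i
    have h5 : (i / 2 ^ e) % 2 = 1 := by simpa using h2
    exact ⟨h1, by omega⟩

variable {V : Type*} [Fintype V] [DecidableEq V]

/-- the containers of the product configuration -/
def cont (m M : ℕ) (h : V → ℕ) (C : Fin M → Finset V) (s : V → Fin (2 ^ (m - 1)) → Bool) :
    Finset (V × Fin M) :=
  univ.filter (fun p => p.1 ∈ C p.2 ∧ ∀ t : Fin (2 ^ (m - 1)), (p.2 : ℕ) / (2 * h p.1) = t →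
    decide (((p.2 : ℕ) / h p.1) % 2 = 1) = s p.1 t)

/-- every independent set of the product lies in a container -/
theorem exists_cont {X Y : V → ℕ} {m M B : ℕ} {h : V → ℕ} (hX : Function.Injective X)
    (hh : ∀ v, 0 < h v) (hM : ∀ v, h v ∣ M) (hB : ∀ v, Y v < B) {F : Finset (Finset V)}
    (hF : ∀ A, RIndep X Y A → ∃ C ∈ F, A ⊆ C) {A : Finset (V × Fin M)}
    (hA : RIndep (PX X M h) (PY Y M B) A) :
    ∃ C : Fin M → Finset V, (∀ l, C l ∈ F) ∧ ∃ s, A ⊆ cont m M h C s := by
  classical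
  have h1 : ∀ l : Fin M, ∃ C ∈ F, univ.filter (fun v => (v, l) ∈ A) ⊆ C := by
    intro l
    apply hF
    intro u hu v hv huv
    simp only [mem_filter, mem_univ, true_and] at hu hv
    exact hA _ hu _ hv (row_adj hh hM hB huv l)
  choose C hC1 hC2 using h1
  refine ⟨C, hC1, fun v t => decide (∃ l : Fin M, (v, l) ∈ A ∧ (l : ℕ) / (2 * h v) = t ∧
    ((l : ℕ) / h v) % 2 = 1), ?_⟩
  rintro ⟨v, l⟩ hvl
  unfold cont
  simp only [mem_filter, mem_univ, true_and]
  refine ⟨hC2 l (by simpa using hvl), ?_⟩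
  intro t ht
  by_cases hpar : ((l : ℕ) / h v) % 2 = 1
  · have : ∃ l : Fin M, (v, l) ∈ A ∧ (l : ℕ) / (2 * h v) = t ∧ ((l : ℕ) / h v) % 2 = 1 :=
      ⟨l, hvl, ht, hpar⟩
    simp only [hpar, this, decide_true]
  · have : ¬ ∃ l : Fin M, (v, l) ∈ A ∧ (l : ℕ) / (2 * h v) = t ∧ ((l : ℕ) / h v) % 2 = 1 := by
      rintro ⟨l', hl', ht', hpar'⟩
      apply hA _ hvl _ hl'
      apply cell_adj hX hh hM hB
      have e1 : (l : ℕ) / (2 * h v) = (l : ℕ) / h v / 2 := by
        rw [mul_comm, Nat.div_div_eq_div_mul]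
      have e2 : (l' : ℕ) / (2 * h v) = (l' : ℕ) / h v / 2 := by
        rw [mul_comm, Nat.div_div_eq_div_mul]
      omega
    rw [decide_eq_false hpar, decide_eq_false this]

/-- the size of a container -/
theorem card_cont {m b M : ℕ} (hMdef : M = 2 ^ m * b) (hb : 0 < b) {F : Finset (Finset V)} {a : ℝ}
    {e : V → ℕ} (he : ∀ v, e v < m)
    (hgood : ∀ C : ℕ → Finset V, (∀ i < 2 ^ m, C i ∈ F) →
      ∑ v, (mx (fib m C v) m (e v) : ℝ) ≤ 7 / 8 * a * 2 ^ m * Fintype.card V)
    (C : Fin M → Finset V) (hC : ∀ l, C l ∈ F) (s : V → Fin (2 ^ (m - 1)) → Bool) :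
    ((cont m M (fun v => 2 ^ (e v) * b) C s).card : ℝ) ≤
      7 / 8 * a * (Fintype.card V * (2 ^ m * b)) := by
  classical
  set C' : ℕ → Finset V := fun l => if h : l < M then C ⟨l, h⟩ else ∅ with hC'
  set σ : V → ℕ → Bool := fun v t => if h : t < 2 ^ (m - 1) then s v ⟨t, h⟩ else true with hσ
  -- the selected rows in residue class `o`
  set sel : V → ℕ → Finset ℕ := fun v o => (fib m (fun i => C' (i * b + o)) v).filter
    (fun i => decide ((i / 2 ^ (e v)) % 2 = 1) = σ v (i / 2 ^ (e v + 1))) with hsel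
  have hsub : cont m M (fun v => 2 ^ (e v) * b) C s ⊆
      (univ : Finset V).biUnion (fun v => (range b).biUnion (fun o =>
        (univ : Finset (V × Fin M)).filter (fun p => p.1 = v ∧ (p.2 : ℕ) % b = o ∧
          (p.2 : ℕ) / b ∈ sel v o))) := by
    rintro ⟨v, l⟩ hp
    unfold cont at hp
    simp only [mem_filter, mem_univ, true_and] at hp
    obtain ⟨h1, h2⟩ := hp
    simp only [mem_biUnion, mem_univ, true_and, mem_filter, mem_range]
    refine ⟨v, (l : ℕ) % b, Nat.mod_lt _ hb, rfl, rfl, ?_⟩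
    have hl := l.2
    have hlm : (l : ℕ) / b < 2 ^ m := by
      rw [Nat.div_lt_iff_lt_mul hb, ← hMdef]; exact hl
    have hdm : (l : ℕ) / b * b + (l : ℕ) % b = l := by
      rw [mul_comm]; exact Nat.div_add_mod _ _
    rw [hsel]
    simp only [mem_filter, fib, mem_range]
    refine ⟨⟨hlm, ?_⟩, ?_⟩
    · rw [hdm, hC']
      simpa using h1
    · have e1 : (l : ℕ) / (2 ^ (e v) * b) = (l : ℕ) / b / 2 ^ (e v) := by
        rw [mul_comm, Nat.div_div_eq_div_mul]
      have e2 : (l : ℕ) / (2 * (2 ^ (e v) * b)) = (l : ℕ) / b / 2 ^ (e v + 1) := by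
        rw [Nat.div_div_eq_div_mul]; congr 1; ring
      have hlt : (l : ℕ) / b / 2 ^ (e v + 1) < 2 ^ (m - 1) := by
        rw [Nat.div_lt_iff_lt_mul (by positivity), ← pow_add]
        refine lt_of_lt_of_le hlm (Nat.pow_le_pow_right (by norm_num) ?_)
        have := he v; omega
      have h3 := h2 ⟨(l : ℕ) / b / 2 ^ (e v + 1), hlt⟩ (by rw [e2])
      rw [e1] at h3
      rw [h3, hσ]
      simp [hlt]
  have hcard1 : (cont m M (fun v => 2 ^ (e v) * b) C s).card ≤
      ∑ v : V, ∑ o ∈ range b, mx (fib m (fun i => C' (i * b + o)) v) m (e v) := by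
    refine (Finset.card_le_card hsub).trans ?_
    refine Finset.card_biUnion_le.trans ?_
    apply Finset.sum_le_sum
    intro v _
    refine Finset.card_biUnion_le.trans ?_
    apply Finset.sum_le_sum
    intro o _
    refine le_trans ?_ (sel_card_le (fib_subset m (fun i => C' (i * b + o)) v) (he v) (σ v))
    apply Finset.card_le_card_of_injOn (fun p : V × Fin M => (p.2 : ℕ) / b)
    · intro p hp
      have := (Finset.mem_filter.mp hp).2.2.2
      exact this
    · intro p hp q hq hpq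
      have hp' := (Finset.mem_filter.mp hp).2
      have hq' := (Finset.mem_filter.mp hq).2
      have e1 := Nat.div_add_mod (p.2 : ℕ) b
      have e2 := Nat.div_add_mod (q.2 : ℕ) b
      simp only at hpq
      rw [hpq, hp'.2.1] at e1
      rw [hq'.2.1] at e2
      exact Prod.ext (hp'.1.trans hq'.1.symm) (Fin.ext (e1.symm.trans e2))
  have hcard2 : ((cont m M (fun v => 2 ^ (e v) * b) C s).card : ℝ) ≤
      ∑ v : V, ∑ o ∈ range b, (mx (fib m (fun i => C' (i * b + o)) v) m (e v) : ℝ) := by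
    exact_mod_cast hcard1
  refine hcard2.trans ?_
  rw [Finset.sum_comm]
  calc ∑ o ∈ range b, ∑ v : V, (mx (fib m (fun i => C' (i * b + o)) v) m (e v) : ℝ)
      ≤ ∑ _o ∈ range b, 7 / 8 * a * 2 ^ m * Fintype.card V := by
        apply Finset.sum_le_sum
        intro o ho
        apply hgood
        intro i hi
        have hlt : i * b + o < M := by
          rw [hMdef]
          calc i * b + o < i * b + b := by have := mem_range.mp ho; omega
            _ = (i + 1) * b := by ring
            _ ≤ 2 ^ m * b := Nat.mul_le_mul_right _ hi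
        rw [hC']
        simp only [hlt, dite_true]
        exact hC _
    _ = 7 / 8 * a * (Fintype.card V * (2 ^ m * b)) := by
        rw [Finset.sum_const, card_range, nsmul_eq_mul]; ring

/-- There is a configuration of `N` points all of whose independent sets lie in one of `2 ^ L`
containers of density at most `a`. -/
def HasConf (N : ℕ) (a : ℝ) (L : ℕ) : Prop :=
  ∃ (V : Type) (_ : Fintype V) (_ : DecidableEq V) (X Y : V → ℕ) (F : Finset (Finset V)),
    Fintype.card V = N ∧ Function.Injective X ∧ Function.Injective Y ∧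
    (∀ A, RIndep X Y A → ∃ C ∈ F, A ⊆ C) ∧ (∀ C ∈ F, (C.card : ℝ) ≤ a * N) ∧ F.card ≤ 2 ^ L

theorem hasConf_one : HasConf 1 1 0 := by
  refine ⟨Unit, inferInstance, inferInstance, fun _ => 0, fun _ => 0, {univ}, rfl,
    fun _ _ _ => rfl, fun _ _ _ => rfl, ?_, ?_, ?_⟩
  · intro A _
    exact ⟨univ, by simp, subset_univ _⟩
  · intro C hC
    rw [mem_singleton] at hC
    subst hC
    simp
  · simp

theorem hasConf_step {N L : ℕ} {a : ℝ} (H : HasConf N a L) {m b : ℕ} (hm0 : 0 < m) (hb : 0 < b)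
    (ha : 0 < a) (hcard : ((2 : ℝ) ^ L) ^ (2 ^ m) < Real.exp (a * N / 2000))
    (hm : 4 * Real.log (8 / a) ≤ m * Real.log 2) :
    HasConf (N * (2 ^ m * b)) (7 / 8 * a) (L * (2 ^ m * b) + 2 ^ (m - 1) * N) := by
  classical
  obtain ⟨V, _, _, X, Y, F, hN, hX, hY, hF1, hF2, hF3⟩ := H
  subst hN
  have hc : (F.card : ℝ) ^ (2 ^ m) < Real.exp (a * Fintype.card V / 2000) := by
    refine lt_of_le_of_lt ?_ hcard
    gcongr
    exact_mod_cast hF3
  obtain ⟨e, he, hgood⟩ := exists_levels m hm0 F ha hF2 hc hm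
  obtain ⟨M, hMdef⟩ : ∃ M, M = 2 ^ m * b := ⟨_, rfl⟩
  rw [← hMdef]
  set h : V → ℕ := fun v => 2 ^ (e v) * b with hh
  have hhpos : ∀ v, 0 < h v := fun v => by rw [hh]; positivity
  have hhM : ∀ v, h v ∣ M := fun v => by
    rw [hh, hMdef]
    exact Nat.mul_dvd_mul_right (pow_dvd_pow 2 (he v).le) b
  set B := (∑ v, Y v) + 1 with hBdef
  have hB : ∀ v, Y v < B := fun v => by
    have := Finset.single_le_sum (f := Y) (fun v _ => Nat.zero_le _) (mem_univ v)
    omega
  set F' : Finset (Finset (V × Fin M)) :=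
    ((Fintype.piFinset (fun _ : Fin M => F)) ×ˢ
      (univ : Finset (V → Fin (2 ^ (m - 1)) → Bool))).image (fun p => cont m M h p.1 p.2) with hF'
  refine ⟨V × Fin M, inferInstance, inferInstance, PX X M h, PY Y M B, F', ?_,
    PX_inj hX hhpos hhM, PY_inj hY hB, ?_, ?_, ?_⟩
  · rw [Fintype.card_prod, Fintype.card_fin]
  · intro A hA
    obtain ⟨C, hC, s, hs⟩ := exists_cont (m := m) hX hhpos hhM hB hF1 hA
    refine ⟨cont m M h C s, ?_, hs⟩
    rw [hF', mem_image]
    exact ⟨(C, s), by simp [Fintype.mem_piFinset, hC], rfl⟩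
  · intro C' hC'
    rw [hF', mem_image] at hC'
    obtain ⟨⟨C, s⟩, hCs, rfl⟩ := hC'
    rw [mem_product, Fintype.mem_piFinset] at hCs
    have := card_cont hMdef hb he hgood C hCs.1 s
    have e2 : ((Fintype.card V * M : ℕ) : ℝ) = Fintype.card V * (2 ^ m * b) := by
      rw [hMdef]; push_cast; ring
    rw [e2]
    exact this
  · refine Finset.card_image_le.trans ?_
    rw [card_product, Fintype.card_piFinset_const, Finset.card_univ, Fintype.card_fun,
      Fintype.card_fun, Fintype.card_fin, Fintype.card_bool, pow_add, pow_mul 2 L, pow_mul 2 (2 ^ (m - 1))]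
    exact Nat.mul_le_mul_right _ (Nat.pow_le_pow_left hF3 _)

end Pool.Agent.Helper64.Rect
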