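import Mathlib
import Pool.Agent.Helper64.Rect.Iterate

/-!
A lower bound for the chromatic number of Delaunay graphs of point sets in the plane with respect to
axis-parallel rectangles which grows faster than every power of `log n`:
`d(n) ≥ (7 / 8) exp (√(log n) / 40)` for all `n ≥ 1`.

The point sets are obtained by iterating the following product. Given a set `V` whose independent
sets have density at most `a`, take `M` translated copies of `V` in rows one above the other, so that
the `M` copies of a point form a narrow column; in the column over `v` arrange the points in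
consecutive blocks of a size `h(v)` chosen at random among many scales, each block descending, and
each block to the right of the previous ones. Consecutive blocks are then completely joined, and the
density of the independent sets drops by the factor `7 / 8`.
-/

namespace Pool.Agent.Helper64.Rect.SuperPolylogOld

open Pool.Agent.Helper64.Rect

/-- The Delaunay graph of a finite set `P` of points of the plane with respect to axis-parallel
rectangles: two distinct points are adjacent if some rectangle `[a, b] × [c, d]` meets `P` in exactly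
these two points. -/
def delaunay (P : Finset (ℝ × ℝ)) : SimpleGraph P where
  Adj p q := p ≠ q ∧ ∃ a b c d : ℝ, a ≤ b ∧ c ≤ d ∧
    (P : Set (ℝ × ℝ)) ∩ (Set.Icc a b ×ˢ Set.Icc c d) = {(p : ℝ × ℝ), (q : ℝ × ℝ)}
  symm := ⟨by
    rintro p q ⟨h, a, b, c, d, h1, h2, h3⟩
    exact ⟨h.symm, a, b, c, d, h1, h2, by rw [h3, Set.pair_comm]⟩⟩
  loopless := ⟨fun _ h => h.1 rfl⟩

/-- `d(n)`: the least integer such that the Delaunay graphs of all sets of `n` points of the plane
are `d(n)`-colourable. -/
noncomputable def dnum (n : ℕ) : ℕ :=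
  sInf {D : ℕ | ∀ P : Finset (ℝ × ℝ), P.card = n → (delaunay P).Colorable D}

/-- Realisation of a configuration by `n` points of the plane. -/
theorem embed {V : Type} [Fintype V] {X Y : V → ℕ} (hX : Function.Injective X) {n : ℕ}
    (hn : Fintype.card V ≤ n) : ∃ (P : Finset (ℝ × ℝ)) (f : V → P), P.card = n ∧
      ∀ u v, RAdj X Y u v → (delaunay P).Adj (f u) (f v) := by
  classical
  set g : V → ℝ × ℝ := fun v => ((X v : ℝ), (Y v : ℝ)) with hg
  set far : ℕ → ℝ × ℝ := fun i => (-((i : ℝ) + 1), -((i : ℝ) + 1)) with hfar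
  have hgi : Function.Injective g := by
    intro u v huv
    have := (Prod.ext_iff.mp huv).1
    simp only [hg, Nat.cast_inj] at this
    exact hX this
  have hfi : Function.Injective far := by
    intro i j hij
    have := (Prod.ext_iff.mp hij).1
    simp only [hfar, neg_inj, add_left_inj, Nat.cast_inj] at this
    exact this
  set P : Finset (ℝ × ℝ) := Finset.univ.image g ∪ (Finset.range (n - Fintype.card V)).image far with hP
  have hdisj : Disjoint (Finset.univ.image g) ((Finset.range (n - Fintype.card V)).image far) := by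
    rw [Finset.disjoint_left]
    intro x hx hx'
    obtain ⟨v, -, rfl⟩ := Finset.mem_image.mp hx
    obtain ⟨i, -, hi⟩ := Finset.mem_image.mp hx'
    have := (Prod.ext_iff.mp hi).1
    simp only [hg, hfar] at this
    have h1 : (0 : ℝ) ≤ X v := Nat.cast_nonneg _
    have h2 : (0 : ℝ) ≤ i := Nat.cast_nonneg _
    linarith
  have hmem : ∀ v, g v ∈ P := fun v => by
    rw [hP, Finset.mem_union]
    exact Or.inl (Finset.mem_image_of_mem _ (Finset.mem_univ v))
  refine ⟨P, fun v => ⟨g v, hmem v⟩, ?_, ?_⟩
  · rw [hP, Finset.card_union_of_disjoint hdisj, Finset.card_image_of_injective _ hgi,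
      Finset.card_image_of_injective _ hfi, Finset.card_univ, Finset.card_range]
    omega
  · rintro u v ⟨huv, hempty⟩
    refine ⟨fun h => huv (hgi (congrArg Subtype.val h)), min (X u : ℝ) (X v), max (X u : ℝ) (X v),
      min (Y u : ℝ) (Y v), max (Y u : ℝ) (Y v), min_le_max, min_le_max, ?_⟩
    ext x
    simp only [Set.mem_inter_iff, Finset.mem_coe, Set.mem_prod, Set.mem_Icc, Set.mem_insert_iff,
      Set.mem_singleton_iff]
    constructor
    · rintro ⟨hxP, ⟨hx1, hx2⟩, ⟨hy1, hy2⟩⟩
      rw [hP, Finset.mem_union, Finset.mem_image, Finset.mem_image] at hxP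
      rcases hxP with ⟨w, -, rfl⟩ | ⟨i, -, rfl⟩
      · simp only [hg] at hx1 hx2 hy1 hy2
        have hb : Btw X Y u v w := by
          refine ⟨⟨?_, ?_⟩, ⟨?_, ?_⟩⟩
          · exact_mod_cast hx1
          · exact_mod_cast hx2
          · exact_mod_cast hy1
          · exact_mod_cast hy2
        rcases hempty w hb with h | h
        · left; rw [h]
        · right; rw [h]
      · exfalso
        simp only [hfar] at hx1
        have h1 : (0 : ℝ) ≤ min (X u : ℝ) (X v) := le_min (Nat.cast_nonneg _) (Nat.cast_nonneg _)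
        have h2 : (0 : ℝ) ≤ i := Nat.cast_nonneg _
        linarith
    · rintro (rfl | rfl)
      · exact ⟨hmem u, ⟨min_le_left _ _, le_max_left _ _⟩, ⟨min_le_left _ _, le_max_left _ _⟩⟩
      · exact ⟨hmem v, ⟨min_le_right _ _, le_max_right _ _⟩, ⟨min_le_right _ _, le_max_right _ _⟩⟩

/-- the number of colours needed for the iterated configuration -/
theorem colors (K n D : ℕ) (hn : 2 ^ ((4 * K + 34) * K) ≤ n)
    (hD : ∀ P : Finset (ℝ × ℝ), P.card = n → (delaunay P).Colorable D) : (8 / 7 : ℝ) ^ K ≤ D := by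
  classical
  obtain ⟨V, _, X, Y, hV, hX, -, hind⟩ := exists_conf K
  obtain ⟨P, f, hPn, hadj⟩ := embed (Y := Y) hX (n := n) (by rw [hV]; exact hn)
  obtain ⟨c⟩ := hD P hPn
  have h1 : ∀ i : Fin D, ((Finset.univ.filter (fun v => c (f v) = i)).card : ℝ) ≤
      (7 / 8) ^ K * 2 ^ ((4 * K + 34) * K) := by
    intro i
    apply hind
    intro u hu v hv huv
    simp only [Finset.mem_filter, Finset.mem_univ, true_and] at hu hv
    exact c.valid (hadj u v huv) (hu.trans hv.symm)
  have h2 : Fintype.card V = ∑ i : Fin D, (Finset.univ.filter (fun v => c (f v) = i)).card := by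
    rw [← Finset.card_univ]
    exact Finset.card_eq_sum_card_fiberwise (fun v _ => Finset.mem_coe.mpr (Finset.mem_univ _))
  have h3 : ((2 : ℝ) ^ ((4 * K + 34) * K)) ≤ D * ((7 / 8) ^ K * 2 ^ ((4 * K + 34) * K)) := by
    have e1 : ((Fintype.card V : ℕ) : ℝ) = 2 ^ ((4 * K + 34) * K) := by rw [hV]; push_cast; rfl
    rw [← e1, h2]
    push_cast
    calc ∑ i : Fin D, ((Finset.univ.filter (fun v => c (f v) = i)).card : ℝ)
        ≤ ∑ _i : Fin D, (7 / 8) ^ K * (2 : ℝ) ^ ((4 * K + 34) * K) :=
          Finset.sum_le_sum (fun i _ => h1 i)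
      _ = D * ((7 / 8) ^ K * 2 ^ ((4 * K + 34) * K)) := by
          rw [Finset.sum_const, Finset.card_univ, Fintype.card_fin, nsmul_eq_mul]
      _ = D * ((7 / 8) ^ K * ∑ i : Fin D, ((Finset.univ.filter (fun v => c (f v) = i)).card : ℝ)) := by
          rw [← Nat.cast_sum, ← h2, e1]
  have h4 : (0 : ℝ) < 2 ^ ((4 * K + 34) * K) := by positivity
  have h5 : (1 : ℝ) ≤ D * (7 / 8) ^ K := by
    by_contra hcon
    rw [not_le] at hcon
    nlinarith
  have h6 : (8 / 7 : ℝ) ^ K * (7 / 8) ^ K = 1 := by rw [← mul_pow]; norm_num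
  calc (8 / 7 : ℝ) ^ K = (8 / 7 : ℝ) ^ K * 1 := (mul_one _).symm
    _ ≤ (8 / 7 : ℝ) ^ K * (D * (7 / 8) ^ K) := by gcongr
    _ = D * ((8 / 7 : ℝ) ^ K * (7 / 8) ^ K) := by ring
    _ = D := by rw [h6, mul_one]

/-- numerical estimate -/
theorem exp_le : Real.exp (2 / 15) ≤ 8 / 7 := by
  have h1 : Real.exp (2 / 15) ^ 15 ≤ (8 / 7 : ℝ) ^ 15 := by
    rw [← Real.exp_nat_mul]
    have e : ((15 : ℕ) : ℝ) * (2 / 15) = 1 + 1 := by norm_num
    rw [e, Real.exp_add]
    have h2 := Real.exp_one_lt_d9
    have h3 : Real.exp 1 * Real.exp 1 ≤ 2.7182818286 * 2.7182818286 := by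
      have := Real.exp_pos 1
      nlinarith
    refine h3.trans ?_
    norm_num
  exact le_of_pow_le_pow_left₀ (by norm_num) (by norm_num) h1

theorem result (n : ℕ) (hn : 1 ≤ n) :
    7 / 8 * Real.exp (Real.sqrt (Real.log n) / 40) ≤ (dnum n : ℝ) := by
  have hne : {D : ℕ | ∀ P : Finset (ℝ × ℝ), P.card = n → (delaunay P).Colorable D}.Nonempty := by
    refine ⟨n, fun P hP => ?_⟩
    have := (delaunay P).colorable_of_fintype
    rwa [Fintype.card_coe, hP] at this
  have hD := Nat.sInf_mem hne
  have hn0 : (0 : ℝ) < n := by exact_mod_cast hn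
  have hlog : 0 ≤ Real.log n := Real.log_nonneg (by exact_mod_cast hn)
  set x : ℝ := Real.sqrt (Real.log n / (38 * Real.log 2)) with hx
  have hl2 : 0 < Real.log 2 := Real.log_pos (by norm_num)
  have hl2' : Real.log 2 < 0.6931471808 := Real.log_two_lt_d9
  have hx0 : 0 ≤ x := Real.sqrt_nonneg _
  set K := ⌊x⌋₊ with hK
  have hKx : (K : ℝ) ≤ x := Nat.floor_le hx0
  have hxK : x < K + 1 := Nat.lt_floor_add_one x
  have hx2 : x ^ 2 = Real.log n / (38 * Real.log 2) := Real.sq_sqrt (by positivity)
  -- the iterated configuration has at most `n` points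
  have hsize : 2 ^ ((4 * K + 34) * K) ≤ n := by
    have h1 : ((4 * K + 34) * K : ℝ) ≤ 38 * x ^ 2 := by
      rcases Nat.eq_zero_or_pos K with h0 | h0
      · rw [h0]; simp only [Nat.cast_zero, mul_zero]; positivity
      · have h2 : (1 : ℝ) ≤ K := by exact_mod_cast h0
        nlinarith
    have h2 : Real.log (((2 ^ ((4 * K + 34) * K) : ℕ) : ℝ)) ≤ Real.log n := by
      push_cast
      rw [Real.log_pow]
      push_cast
      calc (4 * (K : ℝ) + 34) * K * Real.log 2 ≤ 38 * x ^ 2 * Real.log 2 := by gcongr
        _ = Real.log n := by rw [hx2]; field_simp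
    have h3 := (Real.log_le_log_iff (by positivity) hn0).mp h2
    exact_mod_cast h3
  have hcol := colors K n _ hsize hD
  refine le_trans ?_ hcol
  -- numerical comparison
  have h1 : Real.sqrt (Real.log n) / 40 ≤ x * (2 / 15) := by
    have h2 : Real.sqrt (Real.log n) = x * Real.sqrt (38 * Real.log 2) := by
      rw [hx, ← Real.sqrt_mul (by positivity)]
      congr 1
      field_simp
    have h3 : Real.sqrt (38 * Real.log 2) ≤ 16 / 3 := by
      rw [Real.sqrt_le_left (by norm_num)]
      nlinarith
    rw [h2]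
    have : x * Real.sqrt (38 * Real.log 2) ≤ x * (16 / 3) := by gcongr
    linarith
  have h2 : Real.exp (Real.sqrt (Real.log n) / 40) ≤ (8 / 7 : ℝ) ^ (K + 1) := by
    calc Real.exp (Real.sqrt (Real.log n) / 40) ≤ Real.exp (((K + 1 : ℕ) : ℝ) * (2 / 15)) := by
          apply Real.exp_le_exp.mpr
          push_cast
          nlinarith
      _ = Real.exp (2 / 15) ^ (K + 1) := Real.exp_nat_mul _ _
      _ ≤ (8 / 7 : ℝ) ^ (K + 1) := by
          have := exp_le
          gcongr
  rw [pow_succ] at h2
  linarith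

end Pool.Agent.Helper64.Rect.SuperPolylogOld
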